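import Mathlib
import Pool.Agent.H.MP_148afe_an.A

set_option autoImplicit false

namespace Pool.Agent.Results.MP_148afe_an.No

open MeasureTheory FourierTransform Real Filter Topology Pool.Agent.H.MP_148afe_an BoundedContinuousFunction
open scoped Pointwise ENNReal ComplexConjugate

variable {d : ℕ}

/-- the norm `sup_x |μ|(x + K)` of the measure with density `F` -/
noncomputable def NK (K : Set (E d)) (F : E d → ℂ) : ℝ≥0∞ := ⨆ x : E d, ∫⁻ y in x +ᵥ K, ‖F y‖ₑ

/-- the measure with density `G` is the Fourier transform of the one with density `F` -/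
def FT (F G : E d → ℂ) : Prop :=
  LocallyIntegrable F ∧ LocallyIntegrable G ∧ ∀ f, Cc f → Integrable (fun x => ‖ck f x‖ ^ 2 * ‖G x‖) ∧
    ∫ x, cv f (fun t => conj (f (-t))) x * F x = ∫ x, (‖ck f x‖ ^ 2 : ℝ) * G x

theorem ft {G : E d → ℂ} (k : Integrable G) : FT (ck G) G := by
  refine ⟨(ck_cont k).locallyIntegrable, k.locallyIntegrable, fun f h => ?_⟩
  have i : Integrable fun t => conj (f (-t)) :=
    (Complex.conjCLE.toContinuousLinearMap.integrable_comp h.int).comp_neg
  have e : ∀ x, ck (cv f fun t => conj (f (-t))) x = (‖ck f x‖ ^ 2 : ℝ) := fun x => by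
    have := fourier_mul_convolution_eq h.int i (-x)
    simp only [← fourierInv_eq_fourier_neg] at this
    refine this.trans ?_
    rw [Complex.ofReal_pow, ← Complex.mul_conj', ck]
    congr 1
    rw [fourierInv_eq', fourierInv_eq', ← integral_conj, ← integral_neg_eq_self]
    simp [← Complex.exp_conj, map_ofNat]
  refine ⟨?_, (dual (cv_int h.int i) k).trans (by simp_rw [e])⟩
  simpa [e] using (ck_mul (cv_int h.int i) k).norm

theorem result (hd : 1 ≤ d) (K : Set (E d)) (hK : IsCompact K) :
    ∃ F G : ℕ → E d → ℂ, (∀ n, NK K (F n) < ∞ ∧ FT (F n) (G n)) ∧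
      Tendsto (fun n => NK K (F n)) atTop (𝓝 0) ∧ ¬Vague G 0 := by
  let b : ℕ → ℂ := fun n => 1 + n * Complex.I
  have b1 : ∀ n, 0 < (b n).re := fun n => by simp [b]
  let s : ℕ → ℝ := fun n => √((π / ‖b n‖) ^ (d / 2 : ℝ))
  have s0 : ∀ n, 0 < s n := fun n => by
    have := (b1 n).trans_le (Complex.re_le_norm _)
    positivity
  have s1 : Tendsto s atTop (𝓝 0) := by
    have : Tendsto (fun n => π / ‖b n‖) atTop (𝓝 0) := tendsto_const_nhds.div_atTop
      (tendsto_atTop_mono (fun n => by simpa [b] using Complex.im_le_norm (b n)) tendsto_natCast_atTop_atTop)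
    simpa using (this.rpow_const_nhds_zero (p := d / 2) (by positivity)).sqrt
  let G : ℕ → E d → ℂ := fun n x => (s n)⁻¹ * Complex.exp (-b n * ‖x‖ ^ 2)
  have i : ∀ n, Integrable (G n) := fun n => by
    simpa [G] using (GaussianFourier.integrable_cexp_neg_mul_sq_norm_add (b1 n) 0 (0 : E d)).const_mul
      ((s n)⁻¹ : ℂ)
  have l : ∀ n, NK K (ck (G n)) ≤ .ofReal (s n) * volume K := fun n => iSup_le fun x => by
    rw [← measure_vadd (μ := volume) x K, ← setLIntegral_const]
    refine lintegral_mono fun y => ?_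
    have : ck (G n) y = (s n)⁻¹ * 𝓕 (fun x : E d => Complex.exp (-b n * ‖x‖ ^ 2)) (-y) := by
      rw [ck, fourierInv_eq_fourier_neg, fourier_eq', fourier_eq', ← integral_const_mul]
      simp only [G, smul_eq_mul, mul_left_comm]
    rw [← ofReal_norm, this, fourier_gaussian_innerProductSpace (b1 n), norm_mul, norm_mul,
      show (Module.finrank ℝ (E d) / 2 : ℂ) = (d / 2 : ℝ) by simp, Complex.norm_cpow_real]
    refine ENNReal.ofReal_le_ofReal ?_
    have : ‖Complex.exp (-π ^ 2 * ‖-y‖ ^ 2 / b n)‖ ≤ 1 := by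
      rw [Complex.norm_exp, exp_le_one_iff, div_eq_mul_inv]
      norm_cast
      rw [Complex.re_ofReal_mul, Complex.inv_re]
      exact mul_nonpos_of_nonpos_of_nonneg (by nlinarith [sq_nonneg (π * ‖-y‖)])
        (div_nonneg (b1 n).le (Complex.normSq_nonneg _))
    have e : ‖π / b n‖ ^ (d / 2 : ℝ) = s n * s n := by
      rw [mul_self_sqrt (by positivity)]; simp [abs_of_pos pi_pos]
    rw [e, Complex.norm_real, norm_inv, norm_of_nonneg (s0 n).le, mul_assoc, inv_mul_cancel_left₀ (s0 n).ne']
    exact mul_le_of_le_one_right (s0 n).le this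
  refine ⟨fun n => ck (G n), G, fun n => ⟨(l n).trans_lt (ENNReal.mul_lt_top (by simp) hK.measure_lt_top),
    ft (i n)⟩, tendsto_of_tendsto_of_tendsto_of_le_of_le tendsto_const_nhds ?_ (fun _ => zero_le) l,
    fun h => ?_⟩
  · simpa using ENNReal.Tendsto.mul_const (ENNReal.tendsto_ofReal s1) (.inr hK.measure_ne_top)
  let χ : ContDiffBump (0 : E d) := default
  have c : ∀ u : E d →ᵇ ℂ, Cc fun x => u x * χ x := fun u =>
    ⟨by have := χ.continuous; fun_prop, (χ.hasCompactSupport.comp_left Complex.ofReal_zero).mul_left⟩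
  have j : ∀ n, Integrable fun x => χ x * G n x := fun n => by
    simpa using (i n).bdd_mul (c 1).1.aestronglyMeasurable (c := 1)
      (.of_forall fun x => by simpa [abs_of_nonneg χ.nonneg] using χ.le_one)
  have k : ∀ n (u : E d →ᵇ ℂ), Integrable fun x => u x * (χ x * G n x) := fun n u =>
    (j n).bdd_mul u.continuous.aestronglyMeasurable (.of_forall u.norm_coe_le_norm)
  let T : ℕ → (E d →ᵇ ℂ) →L[ℂ] ℂ := fun n => LinearMap.mkContinuous
    ⟨⟨fun u => ∫ x, u x * (χ x * G n x), fun u v => by simp [add_mul, integral_add (k n u) (k n v)]⟩,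
      fun a u => by simp [mul_assoc, integral_const_mul]⟩ (∫ x, ‖χ x * G n x‖) fun u => by
      rw [← integral_mul_const]
      exact norm_integral_le_of_norm_le ((j n).norm.mul_const _) (.of_forall fun x => by
        rw [norm_mul, mul_comm]
        exact mul_le_mul_of_nonneg_left (u.norm_coe_le_norm x) (norm_nonneg _))
  obtain ⟨C, hC⟩ := banach_steinhaus (g := T) fun u => by
    obtain ⟨C, hC⟩ := (h _ (c u)).norm.bddAbove_range
    exact ⟨C, fun n => by simpa [T, mul_assoc] using hC ⟨n, rfl⟩⟩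
  have p : 0 < ∫ x, χ x * exp (-‖x‖ ^ 2) := Continuous.integral_pos_of_hasCompactSupport_nonneg_nonzero
    (by have := χ.continuous; fun_prop) χ.hasCompactSupport.mul_right
    (fun x => mul_nonneg χ.nonneg (exp_nonneg _)) (x := 0) (by simp [χ.one_of_mem_closedBall, χ.rIn_pos.le])
  obtain ⟨n, hn⟩ := ((s1.mul_const C).eventually (gt_mem_nhds ((zero_mul C).trans_lt p))).exists
  let u : E d →ᵇ ℂ := .ofNormedAddCommGroup (fun x => Complex.exp (n * ‖x‖ ^ 2 * Complex.I)) (by fun_prop) 1
    fun x => by norm_cast; exact (Complex.norm_exp_ofReal_mul_I _).le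
  have := ((T n).le_opNorm u).trans (mul_le_mul (hC n) (norm_ofNormedAddCommGroup_le _ zero_le_one _)
    (norm_nonneg _) ((norm_nonneg _).trans (hC n)))
  have e : T n u = ((s n)⁻¹ * ∫ x, χ x * exp (-‖x‖ ^ 2) : ℝ) := by
    rw [← integral_const_mul, ← integral_complex_ofReal]
    refine integral_congr_ae (.of_forall fun x => ?_)
    simp only [u, G, b, coe_ofNormedAddCommGroup]
    push_cast
    rw [mul_left_comm, mul_left_comm (Complex.exp _), ← Complex.exp_add, mul_left_comm]
    congr 3
    ring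
  rw [e, Complex.norm_real, norm_of_nonneg (by have := s0 n; positivity), mul_one,
    inv_mul_le_iff₀ (s0 n)] at this
  linarith

end Pool.Agent.Results.MP_148afe_an.No
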